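import Pool.Agent.AT6.Stmts1
import Pool.Agent.Helper32_AT2.PWU

/-!
# Squad AT6, row OR6: sums over the elements outside the centraliser of `D ^ (ℓ ^ c)`
-/

open scoped BigOperators

noncomputable section

namespace Pool.Agent.PP.T6.H45

open Pool.Agent.Helper51_AWC Pool.Agent.Helper79_WRA Pool.Agent.PP Pool.Agent.PP.KF
open Pool.Agent.PP.K9 Pool.Agent.PP.K9.H97 Pool.Agent.PP.H75 Pool.Agent.PP.T3 Pool.Agent.PP.T2

attribute [local instance] Ideal.Quotient.field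

theorem or6 (obz : ObzStmt) : Or6Stmt := by
  intro ℓ hℓ M _ G _ _ D hD hab c S hS hx F hF hinv
  have hp : ℓ.Prime := hℓ.out
  refine obz M G D S hS F hinv ((ℓ : ℂ) ^ c) fun x hxS => ?_
  obtain ⟨n, hn⟩ := IsPGroup.iff_card.1 hD
  have hdvd : (D ⊓ Cu x).relIndex D ∣ ℓ ^ n := by
    rw [← hn]
    exact Subgroup.relIndex_dvd_card _ _
  obtain ⟨k, -, hk⟩ := (Nat.dvd_prime_pow hp).1 hdvd
  have hck : c ≤ k := by
    by_contra hlt
    apply hx x hxS
    obtain ⟨hW, -⟩ := H32.pwu G (ℓ ^ c) D hab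
    rw [Subgroup.mem_centralizer_iff]
    intro v hv
    obtain ⟨d, hd, rfl⟩ := (hW v).1 hv
    have hnorm : ((D ⊓ Cu x).subgroupOf D).Normal := by
      refine ⟨fun a ha b => ?_⟩
      have h1 : b * a * b⁻¹ = a := by
        apply Subtype.ext
        rw [Subgroup.coe_mul, Subgroup.coe_mul, Subgroup.coe_inv, hab b b.2 a a.2,
          mul_inv_cancel_right]
      rwa [h1]
    have h2 := Subgroup.pow_index_mem ((D ⊓ Cu x).subgroupOf D) ⟨d, hd⟩
    have h3 : d ^ (D ⊓ Cu x).relIndex D ∈ D ⊓ Cu x := Subgroup.mem_subgroupOf.1 h2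
    rw [hk] at h3
    have h4 : d ^ ℓ ^ c ∈ Cu x := by
      have h5 : ℓ ^ c = ℓ ^ k * ℓ ^ (c - k) := by rw [← pow_add]; congr 1; omega
      rw [h5, pow_mul]
      exact (Cu x).pow_mem h3.2 _
    exact (Subgroup.mem_centralizer_iff.1 h4 x rfl).symm
  refine ⟨(ℓ : ℂ) ^ (k - c) * F x, (RM M).mul_mem ?_ (hF x), ?_⟩
  · have h1 := (rr_nat (M := M) (ℓ ^ (k - c))).1
    push_cast at h1
    exact h1
  · rw [hk]
    push_cast
    rw [← mul_assoc, ← pow_add, Nat.add_sub_cancel' hck]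

end Pool.Agent.PP.T6.H45
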